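import Mathlib
import Pool.Agent.TH864.ZO.ZN

/-!
# Approximation of `P (z ^ n) / Q (z ^ n)` by hyperbolic maps of the same degree
-/

set_option autoImplicit false

open Set Filter Topology

namespace Pool.Agent.Results.MP_8f2e1c_an.AlmostAllExponents

/-- The orbit of `c` under `f` converges to an attracting periodic cycle (the notion used in the
frozen statement `S05373`). -/
def Attracted (f : OnePoint ℂ → OnePoint ℂ) (c : OnePoint ℂ) : Prop :=
  ∃ z : OnePoint ℂ, ∃ n : ℕ, 0 < n ∧ f^[n] z = z ∧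
    (∃ U ∈ nhds z, ∀ w ∈ U,
      Filter.Tendsto (fun k : ℕ => f^[n * k] w) Filter.atTop (nhds z)) ∧
    Filter.Tendsto (fun k : ℕ => f^[n * k] c) Filter.atTop (nhds z)

/-- `f` is the continuous map of the Riemann sphere given by `P / Q`. -/
def SphereMap (P Q : Polynomial ℂ) (f : OnePoint ℂ → OnePoint ℂ) : Prop :=
  Continuous f ∧ ∀ z : ℂ, Q.eval z ≠ 0 →
    f (OnePoint.some z) = OnePoint.some (P.eval z / Q.eval z)

/-- `P / Q` is in lowest terms and every critical point (point of the Riemann sphere where the map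
is not locally injective) has an orbit converging to an attracting periodic cycle, as in the frozen
statement `S05373`. -/
def Hyperbolic (P Q : Polynomial ℂ) : Prop :=
  IsCoprime P Q ∧ ∃ f : OnePoint ℂ → OnePoint ℂ, SphereMap P Q f ∧
    ∀ c : OnePoint ℂ, (¬ ∃ U ∈ nhds c, Set.InjOn f U) → Attracted f c

/-- Let `P / Q` be a rational map in lowest terms, of degree `d ≥ 1`, with `|P / Q|` not identically
one on the unit circle. There are `K` and a set `S` of exponents with at most `K` members in each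
window of length `L` far enough out, for every `L`, such that for all `n` outside `S` the following
holds. Suppose that each of the two points `0` and `∞` is either attracted by an attracting cycle of
`P (z ^ n) / Q (z ^ n)` or mapped by it to a point which is not a root of unity. Then the map
`P (z ^ n) / Q (z ^ n)` is a limit of hyperbolic maps of the same degree, and these can be chosen of
the form `P (s z ^ n) / Q (s z ^ n)` with `s` tending to `1`. -/
theorem result (P Q : Polynomial ℂ) (hc : IsCoprime P Q) (d : ℕ)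
    (hd : d = max P.natDegree Q.natDegree) (hd1 : 1 ≤ d)
    (hne : ∃ u : ℂ, ‖u‖ = 1 ∧ ‖P.eval u‖ ≠ ‖Q.eval u‖) :
    ∃ K : ℕ, ∃ S : Set ℕ,
      (∀ L : ℕ, ∃ N₀ : ℕ, ∀ N : ℕ, N₀ ≤ N → (S ∩ Set.Ico N (N + L)).ncard ≤ K) ∧
      ∀ n : ℕ, n ∉ S → ∀ f : OnePoint ℂ → OnePoint ℂ,
        SphereMap (Polynomial.expand ℂ n P) (Polynomial.expand ℂ n Q) f →
        (Attracted f (OnePoint.some 0) ∨ ∀ k : ℕ, 0 < k → P.coeff 0 ^ k ≠ Q.coeff 0 ^ k) →
        (Attracted f OnePoint.infty ∨ ∀ k : ℕ, 0 < k → P.coeff d ^ k ≠ Q.coeff d ^ k) →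
        ∀ ε : ℝ, 0 < ε → ∃ s : ℂ, s ≠ 0 ∧ ‖s - 1‖ < ε ∧
          ∃ P' Q' : Polynomial ℂ,
            P' = Polynomial.expand ℂ n (P.comp (Polynomial.C s * Polynomial.X)) ∧
            Q' = Polynomial.expand ℂ n (Q.comp (Polynomial.C s * Polynomial.X)) ∧
            max P'.natDegree Q'.natDegree =
              max (Polynomial.expand ℂ n P).natDegree (Polynomial.expand ℂ n Q).natDegree ∧
            (∀ i : ℕ, ‖P'.coeff i - (Polynomial.expand ℂ n P).coeff i‖ < ε ∧
              ‖Q'.coeff i - (Polynomial.expand ℂ n Q).coeff i‖ < ε) ∧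
            Hyperbolic P' Q' := by
  obtain ⟨K, S, hS, h⟩ := Pool.Agent.TH864.ZO.almost_all2 hc hd (by omega : 0 < d) hne
  refine ⟨K, S, hS, ?_⟩
  intro n hn f hf h0 hi ε hε
  obtain ⟨s, hs0, hs1, hs2, hs3⟩ := h n hn f hf.1 (fun z hz => by
    have h1 := hf.2 z (by rw [Polynomial.expand_eval]; exact hz)
    rw [Polynomial.expand_eval, Polynomial.expand_eval] at h1
    exact h1) h0 hi ε hε
  refine ⟨s, hs0, hs1, _, _, rfl, rfl, ?_, hs2, ?_⟩
  · have h1 := Pool.Agent.TH864.ZO.expand_sc_natDegree hs0 P n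
    have h2 := Pool.Agent.TH864.ZO.expand_sc_natDegree hs0 Q n
    rw [Pool.Agent.TH864.ZO.sc] at h1 h2
    rw [h1, h2, Polynomial.natDegree_expand, Polynomial.natDegree_expand]
  · obtain ⟨h1, g, h2, h3, h4⟩ := hs3
    exact ⟨h1, g, ⟨h2, h3⟩, h4⟩

end Pool.Agent.Results.MP_8f2e1c_an.AlmostAllExponents
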