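import Mathlib
import Pool.Agent.TH433.MC9

/-!
# Hyperbolicity on the critical circles

For a rational map `R`, a radius `r` and almost every `s` on the circle `|s| = r` the maps
`s R(z ^ n)` are hyperbolic for all large `n`.
-/

set_option autoImplicit false

open Set Filter Topology MeasureTheory

namespace Pool.Agent.Results.MP_8f2e1c_an.CriticalCircles

/-- `P / Q` is in lowest terms and every critical point (point of the Riemann sphere where the map
is not locally injective) has an orbit converging to an attracting periodic cycle. This is word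
for word the condition of the frozen statement `S05373`. -/
def Hyperbolic (P Q : Polynomial ℂ) : Prop :=
  IsCoprime P Q ∧ ∃ f : OnePoint ℂ → OnePoint ℂ, Continuous f ∧
    (∀ z : ℂ, Q.eval z ≠ 0 →
      f (OnePoint.some z) = OnePoint.some (P.eval z / Q.eval z)) ∧
    ∀ c : OnePoint ℂ, (¬ ∃ U ∈ nhds c, Set.InjOn f U) →
      ∃ z : OnePoint ℂ, ∃ n : ℕ, 0 < n ∧ f^[n] z = z ∧
        (∃ U ∈ nhds z, ∀ w ∈ U,
          Filter.Tendsto (fun k : ℕ => f^[n * k] w) Filter.atTop (nhds z)) ∧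
        Filter.Tendsto (fun k : ℕ => f^[n * k] c) Filter.atTop (nhds z)

/-- `|r P| ^ 2 - |Q| ^ 2` at the point `exp (i τ)` of the unit circle. -/
noncomputable def gap (P Q : Polynomial ℂ) (r τ : ℝ) : ℝ :=
  (r * ‖P.eval (Complex.exp (τ * Complex.I))‖) ^ 2 - ‖Q.eval (Complex.exp (τ * Complex.I))‖ ^ 2

/-- Let `R = P / Q` be a rational map of degree `D ≥ 1` and `r > 0` such that `|r R(0)| ≠ 1`,
`|r R(∞)| ≠ 1` and such that the modulus of `r R` on the unit circle takes the value `1` only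
transversally (`|r P| ^ 2 - |Q| ^ 2` has only simple zeros on the unit circle). Then the set of the
angles `t` for which `s R(z ^ n)`, `s = r exp (i t)`, is not hyperbolic has measure `O(n ^ (-1 - δ))`
for some `δ > 0`, and for almost every `s` on the circle `|s| = r` the map `s R(z ^ n)` is hyperbolic
for all large `n`. -/
theorem result : ∀ P Q : Polynomial ℂ, IsCoprime P Q → ∀ D : ℕ,
    D = max P.natDegree Q.natDegree → 1 ≤ D → ∀ r : ℝ, 0 < r →
    r * ‖P.coeff 0‖ ≠ ‖Q.coeff 0‖ → r * ‖P.coeff D‖ ≠ ‖Q.coeff D‖ →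
    (∀ σ : ℝ, gap P Q r σ = 0 → deriv (gap P Q r) σ ≠ 0) →
    (∃ C δ : ℝ, 0 < C ∧ 0 < δ ∧ ∃ n₀ : ℕ, ∀ n : ℕ, n₀ ≤ n →
      volume {t : ℝ | |t| ≤ Real.pi ∧
        ¬ Hyperbolic (Polynomial.C ((r : ℂ) * Complex.exp (t * Complex.I)) *
          Polynomial.expand ℂ n P) (Polynomial.expand ℂ n Q)} ≤
        ENNReal.ofReal (C * (n : ℝ) ^ (-(1 + δ)))) ∧
    ∀ᵐ t : ℝ, ∃ n₀ : ℕ, ∀ n : ℕ, n₀ ≤ n →
      Hyperbolic (Polynomial.C ((r : ℂ) * Complex.exp (t * Complex.I)) * Polynomial.expand ℂ n P)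
        (Polynomial.expand ℂ n Q) := by
  intro P Q hc D hD hD1 r hr h0 hDD hs
  have hr0 : (r : ℂ) ≠ 0 := by exact_mod_cast hr.ne'
  have hrn : ‖(r : ℂ)‖ = r := by rw [Complex.norm_real, Real.norm_eq_abs, abs_of_pos hr]
  have hcr : IsCoprime (Polynomial.C (r : ℂ) * P) Q := by
    have h1 := Pool.Agent.H762R2.Rt.coprime_family hc hr0 1
    rwa [Polynomial.expand_one, Polynomial.expand_one] at h1
  have hgap : Pool.Agent.TH433.MC.gc (Polynomial.C (r : ℂ) * P) Q = gap P Q r := by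
    funext σ
    unfold Pool.Agent.TH433.MC.gc Pool.Agent.TH433.MC.G gap
    rw [Polynomial.eval_mul, Polynomial.eval_C, norm_mul, hrn]
  have hrate : ∀ M : ℝ, 0 ≤ M → Pool.Agent.TH433.MC.Rate fun n => {t : ℝ | |t| ≤ M ∧
      ¬ Hyperbolic (Polynomial.C ((r : ℂ) * Complex.exp (t * Complex.I)) *
        Polynomial.expand ℂ n P) (Polynomial.expand ℂ n Q)} := by
    intro M hM
    have h1 := Pool.Agent.TH433.MC.rate_hyp hcr
      (by rw [Polynomial.natDegree_C_mul hr0]; exact hD) hD1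
      (by rw [Polynomial.coeff_C_mul, norm_mul, hrn]; exact h0)
      (by rw [Polynomial.coeff_C_mul, norm_mul, hrn]; exact hDD)
      (by rw [hgap]; exact hs) hM
    refine h1.mono (n₁ := 0) fun n _ => ?_
    rintro t ⟨ht, hbad⟩
    refine ⟨ht, fun h => hbad ?_⟩
    rw [map_mul, Polynomial.expand_C, ← mul_assoc, ← Polynomial.C_mul,
      mul_comm (Complex.exp _)] at h
    exact h
  refine ⟨hrate Real.pi Real.pi_pos.le, ?_⟩
  have hM : ∀ M : ℕ, ∀ᵐ t : ℝ, |t| ≤ M → ∀ᶠ n : ℕ in atTop,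
      Hyperbolic (Polynomial.C ((r : ℂ) * Complex.exp (t * Complex.I)) * Polynomial.expand ℂ n P)
        (Polynomial.expand ℂ n Q) := by
    intro M
    obtain ⟨C, δ, _, hδ, n₀, h⟩ := hrate M (Nat.cast_nonneg M)
    filter_upwards [Pool.Agent.TH433.MC.ae_of_rate hδ h] with t ht htM
    filter_upwards [ht] with n hn
    by_contra hcon
    exact hn ⟨htM, hcon⟩
  filter_upwards [ae_all_iff.2 hM] with t ht
  obtain ⟨M, hM⟩ := exists_nat_ge |t|
  exact eventually_atTop.1 (ht M hM)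

end Pool.Agent.Results.MP_8f2e1c_an.CriticalCircles
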