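import Mathlib
import Pool.Agent.TH642.RC.Cor

set_option autoImplicit false

open MeasureTheory Polynomial

namespace Pool.Agent.Results.MP_8f2e1c_an.RandomNumerators

/-- `P / Q` is in lowest terms and every critical point (point of the Riemann sphere where the map
is not locally injective) has an orbit converging to an attracting periodic cycle. This is word
for word the condition of the frozen statement `S05373`. -/
def Hyperbolic (P Q : Polynomial ℂ) : Prop :=
  IsCoprime P Q ∧ ∃ f : OnePoint ℂ → OnePoint ℂ, Continuous f ∧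
    (∀ z : ℂ, Q.eval z ≠ 0 →
      f (OnePoint.some z) = OnePoint.some (P.eval z / Q.eval z)) ∧
    ∀ c : OnePoint ℂ, (¬ ∃ U ∈ nhds c, Set.InjOn f U) →
      ∃ z : OnePoint ℂ, ∃ n : ℕ, 0 < n ∧ f^[n] z = z ∧
        (∃ U ∈ nhds z, ∀ w ∈ U,
          Filter.Tendsto (fun k : ℕ => f^[n * k] w) Filter.atTop (nhds z)) ∧
        Filter.Tendsto (fun k : ℕ => f^[n * k] c) Filter.atTop (nhds z)

/-- `P / Q` is in lowest terms, `∞` is an attracting fixed point of the map `f` it induces on the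
Riemann sphere, and the orbit of every critical point of `f` converges to `∞`. -/
def AllEscape (P Q : Polynomial ℂ) : Prop :=
  IsCoprime P Q ∧ ∃ f : OnePoint ℂ → OnePoint ℂ, Continuous f ∧
    (∀ z : ℂ, Q.eval z ≠ 0 →
      f (OnePoint.some z) = OnePoint.some (P.eval z / Q.eval z)) ∧
    f OnePoint.infty = OnePoint.infty ∧
    (∃ U ∈ nhds (OnePoint.infty : OnePoint ℂ), ∀ w ∈ U,
      Filter.Tendsto (fun k : ℕ => f^[k] w) Filter.atTop (nhds OnePoint.infty)) ∧
    ∀ c : OnePoint ℂ, (¬ ∃ U ∈ nhds c, Set.InjOn f U) →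
      Filter.Tendsto (fun k : ℕ => f^[k] c) Filter.atTop (nhds OnePoint.infty)

/-- The polynomial `∑ x_k √(n choose k) z ^ k` with coordinates `x_0, …, x_n`. -/
noncomputable def poly (n : ℕ) (x : Fin (n + 1) → ℂ) : Polynomial ℂ :=
  ∑ k : Fin (n + 1), C (x k * ((√(n.choose k : ℝ) : ℝ) : ℂ)) * X ^ (k : ℕ)

/-- `Q ≠ 0` has degree at most `m`, and its coordinates `q_k / √(m choose k)` are bounded
by `M`. -/
def Denominator (m : ℕ) (M : ℝ) (Q : Polynomial ℂ) : Prop :=
  Q ≠ 0 ∧ Q.natDegree ≤ m ∧ ∀ k, ‖Q.coeff k‖ ≤ M * √(m.choose k : ℝ)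

/-- Rational maps `P / Q` with an arbitrary denominator and a random or perturbed numerator.

(1) Let `θ < 1`, `M ≥ 1`, `ε > 0` and a sequence `T` be given. Then there is `K` such that for
all `n ≥ 1`, all `m ≤ θ n`, all denominators `Q` of degree at most `m` with coordinates bounded by
`M`, all `B ≥ 1` and all independent random coordinates `x_0, …, x_n` whose laws `μ_k` have densities
at most `B` and tails `μ_k (|x| > t) ≤ T_p / t ^ p`: the map `P / Q`, `P = ∑ x_k √(n choose k) z ^ k`,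
has degree `n`, is in lowest terms and has all its critical points in the basin of the attracting
fixed point `∞`, outside an event of probability at most `K B² / n ^ (1 - ε)`.

(2) Let `θ < 1`, `M ≥ 1`, `0 < ε < 1`. Then there are `K` and `n₀` such that for all `n ≥ n₀`,
all denominators `Q` as above and all `P₀` of degree at most `n` with coordinates bounded by `M`
there is a polynomial `P` of degree `n` with `|p_k - p⁰_k| ≤ K n ^ (-(1 - ε) / 4) √(n choose k)` for
all `k`, such that `P / Q` is in lowest terms and has all its critical points in the basin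
of `∞`.

(3) These maps are hyperbolic. -/
theorem result :
    (∀ θ M ε : ℝ, 0 ≤ θ → θ < 1 → 1 ≤ M → 0 < ε → ∀ T : ℕ → ℝ, ∃ K : ℝ, 0 < K ∧
      ∀ n m : ℕ, 1 ≤ n → (m : ℝ) ≤ θ * n → ∀ Q : Polynomial ℂ, Denominator m M Q →
      ∀ B : ℝ, 1 ≤ B → ∀ μ : Fin (n + 1) → Measure ℂ, (∀ i, IsProbabilityMeasure (μ i)) →
      (∀ i, μ i ≤ ENNReal.ofReal B • volume) →
      (∀ (i : Fin (n + 1)) (p : ℕ) (t : ℝ), 0 < t →
        μ i {y | t < ‖y‖} ≤ ENNReal.ofReal (T p / t ^ p)) →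
      Measure.pi μ {x | ¬ ((poly n x).natDegree = n ∧ AllEscape (poly n x) Q)} ≤
        ENNReal.ofReal (K * B ^ 2 / (n : ℝ) ^ (1 - ε))) ∧
    (∀ θ M ε : ℝ, 0 ≤ θ → θ < 1 → 1 ≤ M → 0 < ε → ε < 1 → ∃ K : ℝ, 0 < K ∧ ∃ n₀ : ℕ,
      ∀ n m : ℕ, n₀ ≤ n → (m : ℝ) ≤ θ * n → ∀ Q : Polynomial ℂ, Denominator m M Q →
      ∀ P₀ : Polynomial ℂ, P₀.natDegree ≤ n →
      (∀ k, ‖P₀.coeff k‖ ≤ M * √(n.choose k : ℝ)) →
      ∃ P : Polynomial ℂ, P.natDegree = n ∧
        (∀ k, ‖P.coeff k - P₀.coeff k‖ ≤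
          K / (n : ℝ) ^ ((1 - ε) / 4) * √(n.choose k : ℝ)) ∧
        AllEscape P Q) ∧
    (∀ P Q : Polynomial ℂ, AllEscape P Q → Hyperbolic P Q) := by
  refine ⟨?_, ?_, ?_⟩
  · intro θ M ε h1 h2 h3 h4 T
    obtain ⟨K, hK, h⟩ := Pool.Agent.TH642.RC.M.main_bound θ M ε h1 h2 h3 h4 T
    exact ⟨K, hK, fun n m hn hm Q hQ B hB μ hμ hd ht =>
      h n hn B hB m Q hm hQ.1 hQ.2.1 hQ.2.2 μ hμ hd ht⟩
  · intro θ M ε h1 h2 h3 h4 h5
    obtain ⟨K, hK, n₀, h⟩ := Pool.Agent.TH642.RC.M.coarse θ M ε h1 h2 h3 h4 h5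
    refine ⟨K, hK, n₀, fun n m hn hm Q hQ P₀ hP hP' => ?_⟩
    obtain ⟨x, hx1, hx2, hx3⟩ := h n hn m Q hm hQ.1 hQ.2.1 hQ.2.2
      (fun k => P₀.coeff k / (Pool.Agent.TH642.RC.bw n k : ℂ)) (by
        intro k
        have hb := Pool.Agent.TH642.RC.M.bw_pos (n := n) (k := k) (by omega)
        rw [norm_div, Complex.norm_real, Real.norm_eq_abs, abs_of_pos hb, div_le_iff₀ hb]
        exact hP' k)
    refine ⟨poly n x, hx2, ?_, hx3⟩
    intro k
    rcases Nat.lt_or_ge n k with hk | hk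
    · have e1 : (poly n x).coeff k = 0 := Polynomial.coeff_eq_zero_of_natDegree_lt (by
        have : (poly n x).natDegree = n := hx2
        omega)
      have e2 : P₀.coeff k = 0 := Polynomial.coeff_eq_zero_of_natDegree_lt (by omega)
      rw [e1, e2, sub_zero, norm_zero, Nat.choose_eq_zero_of_lt hk]
      simp
    · have hb := Pool.Agent.TH642.RC.M.bw_pos (n := n) (k := k) hk
      have hb' : (Pool.Agent.TH642.RC.bw n k : ℂ) ≠ 0 := by
        exact_mod_cast hb.ne'
      have e1 : (poly n x).coeff k = x ⟨k, by omega⟩ * (Pool.Agent.TH642.RC.bw n k : ℂ) :=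
        Pool.Agent.TH642.RC.Esc.coeff_TT n x ⟨k, by omega⟩
      have h6 := hx1 ⟨k, by omega⟩
      have e2 : (poly n x).coeff k - P₀.coeff k =
          (x ⟨k, by omega⟩ - P₀.coeff k / (Pool.Agent.TH642.RC.bw n k : ℂ)) *
            (Pool.Agent.TH642.RC.bw n k : ℂ) := by
        rw [e1, sub_mul, div_mul_cancel₀ _ hb']
      rw [e2, norm_mul, Complex.norm_real, Real.norm_eq_abs, abs_of_pos hb]
      exact mul_le_mul_of_nonneg_right h6 hb.le
  · rintro P Q ⟨hc, f, h1, h2, h3, ⟨U, hU, hU'⟩, h4⟩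
    refine ⟨hc, f, h1, h2, fun c hc' => ⟨OnePoint.infty, 1, one_pos, by simpa using h3,
      ⟨U, hU, fun w hw => ?_⟩, ?_⟩⟩
    · simpa only [one_mul] using hU' w hw
    · simpa only [one_mul] using h4 c hc'

end Pool.Agent.Results.MP_8f2e1c_an.RandomNumerators
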