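import Mathlib
import Pool.Agent.TH864.ZO.ZL

/-!
# Hyperbolicity of `P (z ^ n) / Q (z ^ n)` as `n` tends to infinity: a periodic zero-one law
-/

set_option autoImplicit false

open Set Filter Topology

namespace Pool.Agent.Results.MP_8f2e1c_an.ZeroOneLaw

/-- `P / Q` is in lowest terms and every critical point (point of the Riemann sphere where the map
is not locally injective) has an orbit converging to an attracting periodic cycle. This is word
for word the condition of the frozen statement `S05373`. -/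
def Hyperbolic (P Q : Polynomial ℂ) : Prop :=
  IsCoprime P Q ∧ ∃ f : OnePoint ℂ → OnePoint ℂ, Continuous f ∧
    (∀ z : ℂ, Q.eval z ≠ 0 →
      f (OnePoint.some z) = OnePoint.some (P.eval z / Q.eval z)) ∧
    ∀ c : OnePoint ℂ, (¬ ∃ U ∈ nhds c, Set.InjOn f U) →
      ∃ z : OnePoint ℂ, ∃ n : ℕ, 0 < n ∧ f^[n] z = z ∧
        (∃ U ∈ nhds z, ∀ w ∈ U,
          Filter.Tendsto (fun k : ℕ => f^[n * k] w) Filter.atTop (nhds z)) ∧
        Filter.Tendsto (fun k : ℕ => f^[n * k] c) Filter.atTop (nhds z)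

/-- The polynomial `P' Q - P Q'`, whose zeros are the finite critical points of `P / Q`. -/
noncomputable def critPoly (P Q : Polynomial ℂ) : Polynomial ℂ :=
  Polynomial.derivative P * Q - P * Polynomial.derivative Q

/-- `v` is a finite critical value of the maps `P (z ^ n) / Q (z ^ n)` with `n ≥ 2`: it is the value
of `P / Q` at `0`, at `∞` or at a finite critical point of `P / Q`. -/
def CriticalValue (P Q : Polynomial ℂ) (v : ℂ) : Prop :=
  ∃ p q : ℂ, q ≠ 0 ∧ v = p / q ∧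
    ((p = P.coeff 0 ∧ q = Q.coeff 0) ∨
      (p = P.coeff (max P.natDegree Q.natDegree) ∧ q = Q.coeff (max P.natDegree Q.natDegree)) ∨
      ∃ y : ℂ, (critPoly P Q).eval y = 0 ∧ p = P.eval y ∧ q = Q.eval y)

/-- The map `z ↦ P (z ^ n) / Q (z ^ n)` of the plane (with value `0` at the poles, where it is never
used). -/
noncomputable def power (P Q : Polynomial ℂ) (n : ℕ) (z : ℂ) : ℂ :=
  P.eval (z ^ n) / Q.eval (z ^ n)

/-- `x` is a root of unity. -/
def RootOfUnity (x : ℂ) : Prop := ∃ k : ℕ, 0 < k ∧ x ^ k = 1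

/-- The exponent `n` is resonant: the orbit of some critical value of `P (z ^ n) / Q (z ^ n)`
consists of roots of unity and contains no critical point of this map. -/
def Resonant (P Q : Polynomial ℂ) (n : ℕ) : Prop :=
  ∃ v : ℂ, CriticalValue P Q v ∧ ∀ j : ℕ, RootOfUnity ((power P Q n)^[j] v) ∧
    (critPoly P Q).eval (((power P Q n)^[j] v) ^ n) ≠ 0

/-- The exponent `n` is `c`-exceptional: the orbit of some critical value leaves the roots of unity
at a point `x` of the unit circle for which `||P (x ^ n)| - |Q (x ^ n)|| ≤ c`. -/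
def Exceptional (P Q : Polynomial ℂ) (c : ℝ) (n : ℕ) : Prop :=
  ∃ v : ℂ, CriticalValue P Q v ∧ ∃ j : ℕ, (∀ i < j, RootOfUnity ((power P Q n)^[i] v)) ∧
    ‖(power P Q n)^[j] v‖ = 1 ∧ ¬ RootOfUnity ((power P Q n)^[j] v) ∧
    |‖P.eval (((power P Q n)^[j] v) ^ n)‖ - ‖Q.eval (((power P Q n)^[j] v) ^ n)‖| ≤ c

/-- Let `P / Q` be a rational map in lowest terms, of degree at least one, with `|P / Q|` not
identically one on the unit circle. There are `M ≥ 1`, `K`, `n₀` and `C` such that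
(1) resonance of `n` depends only on `n` modulo `M`;
(2) for all resonant `n ≥ n₀` the map `P (z ^ n) / Q (z ^ n)` is not hyperbolic;
(3) for all other `n ≥ n₀` which are not `C log n / n`-exceptional it is hyperbolic;
(4) for every `L`, all windows of length `L` far enough out contain at most `K` exceptional `n`;
(5) the set of all `n` for which the map is hyperbolic has a natural density, equal to the
proportion of the non-resonant classes modulo `M`. -/
theorem result (P Q : Polynomial ℂ) (hc : IsCoprime P Q)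
    (hd : 1 ≤ max P.natDegree Q.natDegree)
    (hne : ∃ u : ℂ, ‖u‖ = 1 ∧ ‖P.eval u‖ ≠ ‖Q.eval u‖) :
    ∃ M K n₀ : ℕ, ∃ C : ℝ, 0 < M ∧
      (∀ n m : ℕ, n ≡ m [MOD M] → (Resonant P Q n ↔ Resonant P Q m)) ∧
      (∀ n : ℕ, n₀ ≤ n → Resonant P Q n →
        ¬ Hyperbolic (Polynomial.expand ℂ n P) (Polynomial.expand ℂ n Q)) ∧
      (∀ n : ℕ, n₀ ≤ n → ¬ Resonant P Q n → ¬ Exceptional P Q (C * (Real.log n / n)) n →
        Hyperbolic (Polynomial.expand ℂ n P) (Polynomial.expand ℂ n Q)) ∧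
      (∀ L : ℕ, ∃ N₀ : ℕ, ∀ N : ℕ, N₀ ≤ N →
        ({n : ℕ | Exceptional P Q (C * (Real.log n / n)) n} ∩ Set.Ico N (N + L)).ncard ≤ K) ∧
      Tendsto (fun N : ℕ => (({n : ℕ | Hyperbolic (Polynomial.expand ℂ n P)
        (Polynomial.expand ℂ n Q)} ∩ Set.Iio N).ncard : ℝ) / N) atTop
        (𝓝 (({a : ℕ | a < M ∧ ¬ Resonant P Q a}.ncard : ℝ) / M)) := by
  have hcv : ∀ v : ℂ, CriticalValue P Q v ↔
      Pool.Agent.TH864.ZO.Marked P Q (max P.natDegree Q.natDegree) v := by
    intro v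
    unfold CriticalValue Pool.Agent.TH864.ZO.Marked
    rw [← Polynomial.coeff_zero_eq_eval_zero, ← Polynomial.coeff_zero_eq_eval_zero]
    constructor
    · rintro ⟨p, q, hq, rfl, ⟨rfl, rfl⟩ | ⟨rfl, rfl⟩ | ⟨y, hy, rfl, rfl⟩⟩
      · exact Or.inl ⟨hq, rfl⟩
      · exact Or.inr (Or.inl ⟨hq, rfl⟩)
      · exact Or.inr (Or.inr ⟨y, hy, hq, rfl⟩)
    · rintro (⟨hq, rfl⟩ | ⟨hq, rfl⟩ | ⟨y, hy, hq, rfl⟩)
      · exact ⟨_, _, hq, rfl, Or.inl ⟨rfl, rfl⟩⟩
      · exact ⟨_, _, hq, rfl, Or.inr (Or.inl ⟨rfl, rfl⟩)⟩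
      · exact ⟨_, _, hq, rfl, Or.inr (Or.inr ⟨y, hy, rfl, rfl⟩)⟩
  have hst : ∀ n : ℕ, Pool.Agent.TH864.ZO.st P Q n 1 = power P Q n := by
    intro n
    funext z
    rw [Pool.Agent.TH864.ZO.st_one]
    rfl
  have hres : ∀ n : ℕ, Pool.Agent.TH864.ZO.Res P Q (max P.natDegree Q.natDegree) n ↔
      Resonant P Q n := by
    intro n
    unfold Pool.Agent.TH864.ZO.Res Resonant
    simp only [hst, ← hcv]
    exact Iff.rfl
  have hexc : ∀ (c : ℝ) (n : ℕ),
      Pool.Agent.TH864.ZO.Exc P Q (max P.natDegree Q.natDegree) c n ↔ Exceptional P Q c n := by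
    intro c n
    unfold Pool.Agent.TH864.ZO.Exc Exceptional
    simp only [hst, ← hcv]
    exact Iff.rfl
  obtain ⟨M, K, n₀, C, hM, h1, h2, h3, h4, h5⟩ :=
    Pool.Agent.TH864.ZO.zero_one hc rfl (by omega : 0 < max P.natDegree Q.natDegree) hne
  simp only [hres] at h1 h2 h3 h5
  simp only [hexc] at h3 h4
  exact ⟨M, K, n₀, C, hM, h1, h2, h3, h4, h5⟩

end Pool.Agent.Results.MP_8f2e1c_an.ZeroOneLaw
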